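import Mathlib

/-!
Project MS (MP_e2b059_co): small monotone graph classes have bounded degeneracy and labels of
length `O(log n)`: definitions and statements of the parts.
-/

set_option autoImplicit false

namespace Pool.Agent.W79.MS

open scoped Classical

/-- a class of graphs on the sets `Fin n`, closed under induced subgraphs (and isomorphism) -/
def Hered (P : (n : ℕ) → Set (SimpleGraph (Fin n))) : Prop :=
  ∀ (n m : ℕ) (e : Fin m ↪ Fin n) (G : SimpleGraph (Fin n)), G ∈ P n → G.comap e ∈ P m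

/-- closed under deleting edges -/
def Mono (P : (n : ℕ) → Set (SimpleGraph (Fin n))) : Prop :=
  ∀ (n : ℕ) (G H : SimpleGraph (Fin n)), H ≤ G → G ∈ P n → H ∈ P n

/-- small, with constant `c` -/
def SmallC (c : ℕ) (P : (n : ℕ) → Set (SimpleGraph (Fin n))) : Prop :=
  ∀ n : ℕ, (P n).ncard ≤ n.factorial * c ^ n

/-- the underlying graph of a set of arcs -/
def und {V : Type} (L : Finset (V × V)) : SimpleGraph V :=
  SimpleGraph.fromRel (fun u v => (u, v) ∈ L)

/-- `L` has no loops and no pair of opposite arcs -/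
def Ori {V : Type} (L : Finset (V × V)) : Prop :=
  (∀ v, (v, v) ∉ L) ∧ ∀ u v, (u, v) ∈ L → (v, u) ∉ L

/-- all the out-degrees are `D` -/
def OutD {V : Type} [Fintype V] (D : ℕ) (A : Finset (V × V)) : Prop :=
  ∀ v, (A.filter (fun p => p.1 = v)).card = D

/-- everything can be reached from `r` along the arcs of `A` -/
def Reach {V : Type} (A : Finset (V × V)) (r : V) : Prop :=
  ∀ v, Relation.ReflTransGen (fun x y => (x, y) ∈ A) r v

/-- the image of a set of arcs under a permutation -/
noncomputable def mv {V : Type} (σ : Equiv.Perm V) (L : Finset (V × V)) : Finset (V × V) :=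
  L.image (fun p => (σ p.1, σ p.2))

/-- a spanning out-tree: a parent function along arcs of `A` with a rank -/
def S_TREE : Prop :=
  ∀ (V : Type) [Fintype V] (A : Finset (V × V)) (r : V), Reach A r →
    ∃ (par : V → V) (rk : V → ℕ), ∀ v, v ≠ r → (par v, v) ∈ A ∧ rk (par v) < rk v

/-- the number of maps sending a rooted tree into a digraph with out-degrees `D` -/
def S_EMB : Prop :=
  ∀ (n D : ℕ) (A : Finset (Fin n × Fin n)), OutD D A →
    ∀ (L : Finset (Fin n × Fin n)) (r : Fin n), Reach L r →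
      (Finset.univ.filter (fun σ : Equiv.Perm (Fin n) => mv σ L ⊆ A)).card ≤ n * D ^ n

/-- the number of orientations of graphs of the class with at most `3 n` edges -/
def S_ORI : Prop :=
  ∀ (c : ℕ) (P : (n : ℕ) → Set (SimpleGraph (Fin n))), SmallC c P → ∀ n : ℕ,
    ({L | Ori L ∧ L.card ≤ 3 * n ∧ und L ∈ P n} : Set (Finset (Fin n × Fin n))).ncard ≤
      8 ^ n * (n.factorial * c ^ n)

/-- double counting -/
def S_DBL : Prop :=
  ∀ (c : ℕ) (P : (n : ℕ) → Set (SimpleGraph (Fin n))), Hered P → Mono P → SmallC c P →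
    ∀ (n D : ℕ) (A : Finset (Fin n × Fin n)) (r : Fin n), Ori A → OutD D A → Reach A r →
      und A ∈ P n →
      ∃ T ⊆ A, T.card ≤ n ∧
        (((A \ T).powersetCard (2 * n)).card) * n.factorial ≤
          (8 ^ n * (n.factorial * c ^ n)) * (n * D ^ n)

/-- the numerical contradiction -/
def S_NUM : Prop :=
  ∀ (c D n : ℕ), 1 ≤ n → 64 * c + 3 ≤ D →
    ∀ M : ℕ, (D - 1) * n ≤ M → 8 ^ n * c ^ n * (n * D ^ n) < M.choose (2 * n)

/-- a dense set of vertices contains a rooted digraph with out-degrees `D` -/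
def S_HALL : Prop :=
  ∀ (n D : ℕ) (G : SimpleGraph (Fin n)) (S : Finset (Fin n)), S.Nonempty →
    D * S.card ≤ (G.edgeFinset.filter (fun e => ∀ v ∈ e, v ∈ S)).card →
    ∃ (m : ℕ) (e : Fin m ↪ Fin n) (A : Finset (Fin m × Fin m)) (r : Fin m),
      Ori A ∧ OutD D A ∧ Reach A r ∧ und A ≤ G.comap e

/-- labels from sparsity: `K` and the decoder depend only on `D` -/
def S_LAB : Prop :=
  ∀ D : ℕ, ∃ (K : ℕ) (dec : List Bool → List Bool → Bool), ∀ (n : ℕ) (G : SimpleGraph (Fin n)),
    (∀ S : Finset (Fin n), S.Nonempty → ∃ v ∈ S, (S.filter (G.Adj v)).card ≤ D) →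
    ∃ l : Fin n → List Bool, Function.Injective l ∧ (∀ v, (l v).length = K * (Nat.log 2 n + 1)) ∧
      ∀ u v, u ≠ v → (G.Adj u v ↔ dec (l u) (l v) = true)

end Pool.Agent.W79.MS
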