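import Pool.Agent.W79.MS.Defs

/-!
Project MS: the theorem from its parts.
-/

set_option autoImplicit false

namespace Pool.Agent.W79.MS

open scoped Classical

/-- the number of edges inside a set is less than `D` times its size -/
theorem sparse (hD : S_DBL) (hN : S_NUM) (hH : S_HALL) (c : ℕ)
    (P : (n : ℕ) → Set (SimpleGraph (Fin n))) (h1 : Hered P) (h2 : Mono P) (h3 : SmallC c P)
    (n : ℕ) (G : SimpleGraph (Fin n)) (hG : G ∈ P n) (S : Finset (Fin n)) (hS : S.Nonempty) :
    (G.edgeFinset.filter (fun e => ∀ v ∈ e, v ∈ S)).card < (64 * c + 3) * S.card := by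
  by_contra hlt
  obtain ⟨m, e, A, r, hO, hA, hR, hle⟩ := hH n (64 * c + 3) G S hS (not_lt.1 hlt)
  have hm : 1 ≤ m := by
    rcases Nat.eq_zero_or_pos m with h | h
    · subst h; exact r.elim0
    · exact h
  have hP : und A ∈ P m := h2 m _ _ hle (h1 n m e G hG)
  obtain ⟨T, hTA, hTc, hdb⟩ := hD c P h1 h2 h3 m (64 * c + 3) A r hO hA hR hP
  have hAc : A.card = (64 * c + 3) * m := by
    have h4 : A.card = ∑ v : Fin m, (A.filter (fun p => p.1 = v)).card :=
      Finset.card_eq_sum_card_fiberwise (fun p _ => Finset.mem_univ p.1)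
    have h5 : ∀ v : Fin m, (A.filter (fun p => p.1 = v)).card = 64 * c + 3 := by
      intro v
      rw [← hA v]
      congr 1
      ext p
      simp
    rw [h4, Finset.sum_congr rfl (fun v _ => h5 v)]
    simp [mul_comm]
  have hM : (64 * c + 3 - 1) * m ≤ (A \ T).card := by
    have h5 : (A \ T).card = A.card - T.card := Finset.card_sdiff_of_subset hTA
    rw [h5, hAc]
    have h6 : (64 * c + 3 - 1) * m = (64 * c + 3) * m - m := by
      rw [Nat.sub_mul, one_mul]
    rw [h6]
    omega
  have h7 := hN c (64 * c + 3) m hm le_rfl _ hM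
  rw [Finset.card_powersetCard] at hdb
  have h8 : (8 ^ m * c ^ m * (m * (64 * c + 3) ^ m)) * m.factorial <
      (A \ T).card.choose (2 * m) * m.factorial :=
    Nat.mul_lt_mul_of_pos_right h7 (Nat.factorial_pos m)
  have h9 : 8 ^ m * (m.factorial * c ^ m) * (m * (64 * c + 3) ^ m) =
      (8 ^ m * c ^ m * (m * (64 * c + 3) ^ m)) * m.factorial := by ring
  omega

/-- a sparse graph is degenerate -/
theorem degen {n D : ℕ} (G : SimpleGraph (Fin n)) (S : Finset (Fin n)) (hS : S.Nonempty)
    (h : (G.edgeFinset.filter (fun e => ∀ v ∈ e, v ∈ S)).card < D * S.card) :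
    ∃ v ∈ S, (S.filter (G.Adj v)).card ≤ 2 * D := by
  by_contra hcon
  have hcon : ∀ v ∈ S, 2 * D < (S.filter (G.Adj v)).card := by
    intro v hv
    by_contra h5
    exact hcon ⟨v, hv, not_lt.1 h5⟩
  have h1 : 2 * D * S.card ≤ ∑ v ∈ S, (S.filter (G.Adj v)).card := by
    calc 2 * D * S.card = ∑ v ∈ S, 2 * D := by simp [mul_comm]
      _ ≤ _ := Finset.sum_le_sum (fun v hv => (hcon v hv).le)
  have h2 : ∑ v ∈ S, (S.filter (G.Adj v)).card ≤
      2 * (G.edgeFinset.filter (fun e => ∀ v ∈ e, v ∈ S)).card := by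
    have h5 : ∑ v ∈ S, (S.filter (G.Adj v)).card =
        (S.sigma (fun v => S.filter (G.Adj v))).card := (Finset.card_sigma _ _).symm
    rw [h5]
    refine Finset.card_le_mul_card_image_of_maps_to (f := fun p => s(p.1, p.2)) ?_ 2 ?_
    · rintro ⟨u, v⟩ huv
      obtain ⟨hu, hv⟩ := Finset.mem_sigma.1 huv
      obtain ⟨hv, huv⟩ := Finset.mem_filter.1 hv
      refine Finset.mem_filter.2 ⟨?_, ?_⟩
      · rw [SimpleGraph.mem_edgeFinset]
        exact huv
      · intro w hw
        rcases Sym2.mem_iff.1 hw with h6 | h6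
        · rw [h6]; exact hu
        · rw [h6]; exact hv
    · intro e _
      induction e using Sym2.ind with
      | _ a b =>
        have h6 : (Finset.filter (fun p : (Σ _ : Fin n, Fin n) => s(p.1, p.2) = s(a, b))
            (S.sigma (fun v => S.filter (G.Adj v)))) ⊆ {⟨a, b⟩, ⟨b, a⟩} := by
          rintro ⟨u, v⟩ huv
          have h7 := (Finset.mem_filter.1 huv).2
          rcases Sym2.eq_iff.1 h7 with ⟨h8, h9⟩ | ⟨h8, h9⟩
          · simp at h8 h9
            subst h8; subst h9
            simp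
          · simp at h8 h9
            subst h8; subst h9
            simp
        exact (Finset.card_le_card h6).trans Finset.card_le_two
  have h3 : 2 * D * S.card = 2 * (D * S.card) := by ring
  omega

end Pool.Agent.W79.MS
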