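import Pool.Agent.W79.MS.Final
import Pool.Agent.W120.MS.Tree
import Pool.Agent.W120.MS.Dbl
import Pool.Agent.W683.MS.Ori
import Pool.Agent.W530.MS.Hall
import Pool.Agent.W530.MS.Lab
import Pool.Agent.W346.MS.Num

/-!
Project MS: the main theorem.
-/

set_option autoImplicit false

namespace Pool.Agent.W79.MS

open scoped Classical

theorem sparse' (c : ℕ) (P : (n : ℕ) → Set (SimpleGraph (Fin n))) (h1 : Hered P) (h2 : Mono P)
    (h3 : SmallC c P) (n : ℕ) (G : SimpleGraph (Fin n)) (hG : G ∈ P n) (S : Finset (Fin n))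
    (hS : S.Nonempty) :
    ∃ v ∈ S, (S.filter (G.Adj v)).card ≤ 2 * (64 * c + 3) :=
  degen G S hS (sparse (Pool.Agent.W120.MS.dbl Pool.Agent.W120.MS.tree Pool.Agent.W683.MS.main)
    Pool.Agent.W346.MS.main Pool.Agent.W530.MS.Hall.main c P h1 h2 h3 n G hG S hS)

end Pool.Agent.W79.MS
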