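import Mathlib
import Pool.Agent.W79.MS.Main

set_option autoImplicit false

/-!
# Small monotone classes of graphs have bounded degeneracy and labels of length `O(log n)`

A monotone (closed under subgraphs) class with at most `n! c ^ n` labelled `n`-vertex graphs for
every `n` has bounded degeneracy; hence it has an adjacency labelling scheme with labels of length
`K (⌊log₂ n⌋ + 1)`, the decoder being the same for all graphs of the class.

Idea of the proof. If the degeneracy is large, there is a graph of the class on `n` vertices with
an orientation `A` all of whose out-degrees are `D`, in which all vertices can be reached from one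
of them. Fix a spanning out-tree `T` of it. The graphs `T ∪ R`, where `R ⊆ A` has `2 n` arcs, are in
the class, and their images under the `n!` permutations of the vertices are counted with a small
multiplicity, because a digraph that spans from a root has at most `n D ^ n` images in `A`.
Comparing with `n! c ^ n` bounds `D`.
-/

namespace Pool.Agent.W79.MS.MonotoneSmall

open scoped Classical in
/-- **Theorem.** Let `C` be a class of finite graphs closed under isomorphism and under taking
subgraphs, with at most `n! c ^ n` graphs on the vertex set `Fin n` for every `n`. There are `d`,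
`K` and a decoder `dec` such that every graph `G` of `C` on `n` vertices is `d`-degenerate and has
pairwise distinct vertex labels of length exactly `K (⌊log₂ n⌋ + 1)` from which `dec` decides
adjacency. -/
theorem result (C : (n : ℕ) → Set (SimpleGraph (Fin n)))
    (hered : ∀ (n m : ℕ) (e : Fin m ↪ Fin n) (G : SimpleGraph (Fin n)),
      G ∈ C n → G.comap ⇑e ∈ C m)
    (mono : ∀ (n : ℕ) (G H : SimpleGraph (Fin n)), H ≤ G → G ∈ C n → H ∈ C n)
    (small : ∃ c : ℕ, ∀ n : ℕ, (C n).ncard ≤ n.factorial * c ^ n) :
    ∃ (d K : ℕ) (dec : List Bool → List Bool → Bool),
      ∀ (n : ℕ) (G : SimpleGraph (Fin n)), G ∈ C n →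
        (∀ S : Finset (Fin n), S.Nonempty → ∃ v ∈ S, (S.filter (fun w => G.Adj v w)).card ≤ d) ∧
        ∃ l : Fin n → List Bool, Function.Injective l ∧
          (∀ v, (l v).length = K * (Nat.log 2 n + 1)) ∧
          ∀ u v, u ≠ v → (G.Adj u v ↔ dec (l u) (l v) = true) := by
  obtain ⟨c, hc⟩ := small
  obtain ⟨K, dec, hdec⟩ := Pool.Agent.W530.MS.Lab.main (2 * (64 * c + 3))
  refine ⟨2 * (64 * c + 3), K, dec, fun n G hG => ?_⟩
  have h := Pool.Agent.W79.MS.sparse' c C hered mono hc n G hG
  exact ⟨fun S hS => h S hS, hdec n G (fun S hS => h S hS)⟩

end Pool.Agent.W79.MS.MonotoneSmall
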